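import Pool.Agent.R36.CwBase

/-!
# MP_41df87_co, Q1: clique-width when the box graph is a cycle

For every `n ≥ 2` there is a graph with `4 * n ^ 2` vertices, with a monotone partition into four
cliques whose box graph is a chordless cycle, and with clique-width at least `n / 11`. So the
clique-width is not bounded by `g k * log |V|`.
-/

set_option autoImplicit false

open Finset Classical Pool.Agent.H175R2 Pool.Agent.R36

namespace Pool.Agent.Results.MP_41df87_co.PolynomialGrowth

/-- `X` is uniform to `Y`: all pairs are adjacent or no pair is. -/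
def Uniform {V : Type} (G : SimpleGraph V) (X Y : Set V) : Prop :=
  (∀ x ∈ X, ∀ y ∈ Y, G.Adj x y) ∨ (∀ x ∈ X, ∀ y ∈ Y, ¬ G.Adj x y)

/-- `X` is monotone to `Y`: the neighbourhoods in `Y` of the vertices of `X` form a chain. -/
def MonotoneTo {V : Type} (G : SimpleGraph V) (X Y : Set V) : Prop :=
  ∀ u ∈ X, ∀ v ∈ X, (∀ y ∈ Y, G.Adj u y → G.Adj v y) ∨ (∀ y ∈ Y, G.Adj v y → G.Adj u y)

/-- The `i`-th part of the partition given by `P`. -/
def part {V : Type} {k : ℕ} (P : V → Fin k) (i : Fin k) : Set V := {v | P v = i}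

/-- `P` is a monotone partition of the vertex set into `k` (nonempty) cliques. -/
structure IsMonotoneCliquePartition {V : Type} {k : ℕ} (G : SimpleGraph V) (P : V → Fin k) :
    Prop where
  /-- the parts are not empty -/
  nonempty : Function.Surjective P
  /-- the parts are cliques -/
  clique : ∀ i, G.IsClique (part P i)
  /-- every part is monotone to its complement -/
  monotone : ∀ i, MonotoneTo G (part P i) (part P i)ᶜ

/-- The box graph: two parts are adjacent when they are not uniform to each other. -/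
def boxGraph {V : Type} {k : ℕ} (G : SimpleGraph V) (P : V → Fin k) : SimpleGraph (Fin k) where
  Adj i j := i ≠ j ∧ ¬ Uniform G (part P i) (part P j)
  symm := ⟨fun i j h => ⟨h.1.symm, fun hu => h.2 (by
    rcases hu with hu | hu
    · exact Or.inl fun x hx y hy => (hu y hy x hx).symm
    · exact Or.inr fun x hx y hy hxy => hu y hy x hx hxy.symm)⟩⟩
  loopless := ⟨fun i h => h.1 rfl⟩

/-- position of a vertex inside its clique (lexicographic) -/
def pos {n : ℕ} (p : Fin n × Fin n) : ℕ := p.1.val * n + p.2.val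

lemma pos_inj {n : ℕ} {p q : Fin n × Fin n} (h : pos p = pos q) : p = q := by
  obtain ⟨⟨a, ha⟩, ⟨r, hr⟩⟩ := p
  obtain ⟨⟨b, hb⟩, ⟨s, hs⟩⟩ := q
  unfold pos at h
  simp only at h
  have h1 : a = b := by
    have e1 : (a * n + r) / n = a := by
      rw [mul_comm, Nat.mul_add_div (by omega), Nat.div_eq_of_lt hr, add_zero]
    have e2 : (b * n + s) / n = b := by
      rw [mul_comm, Nat.mul_add_div (by omega), Nat.div_eq_of_lt hs, add_zero]
    rw [← e1, ← e2, h]
  subst h1
  have h2 : r = s := by omega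
  subst h2
  rfl

/-- The graph: vertices `(i, p)` with `i : Fin 4`, `p : Fin n × Fin n`. -/
def GG (n : ℕ) : SimpleGraph (Fin 4 × (Fin n × Fin n)) :=
  SimpleGraph.fromRel (fun x y =>
    (x.1 = 0 ∧ y.1 = 1 ∧ pos y.2 ≤ pos x.2) ∨ (x.1 = 2 ∧ y.1 = 1 ∧ pos y.2 ≤ pos x.2) ∨
    (x.1 = 2 ∧ y.1 = 3 ∧ pos y.2 ≤ pos x.2) ∨ (x.1 = 0 ∧ y.1 = 3 ∧ pos y.2 + n ≤ pos x.2) ∨
    x.1 = y.1)

section

variable {n : ℕ}

lemma adj01 (p q : Fin n × Fin n) : (GG n).Adj (0, p) (1, q) ↔ pos q ≤ pos p := by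
  simp [GG, SimpleGraph.fromRel_adj]

lemma adj21 (p q : Fin n × Fin n) : (GG n).Adj (2, p) (1, q) ↔ pos q ≤ pos p := by
  simp [GG, SimpleGraph.fromRel_adj]

lemma adj23 (p q : Fin n × Fin n) : (GG n).Adj (2, p) (3, q) ↔ pos q ≤ pos p := by
  simp [GG, SimpleGraph.fromRel_adj]

lemma adj03 (p q : Fin n × Fin n) : (GG n).Adj (0, p) (3, q) ↔ pos q + n ≤ pos p := by
  simp [GG, SimpleGraph.fromRel_adj]

lemma adj02 (p q : Fin n × Fin n) : ¬ (GG n).Adj (0, p) (2, q) := by
  simp [GG, SimpleGraph.fromRel_adj]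

lemma adj13 (p q : Fin n × Fin n) : ¬ (GG n).Adj (1, p) (3, q) := by
  simp [GG, SimpleGraph.fromRel_adj]

lemma adj_same (i : Fin 4) (p q : Fin n × Fin n) : (GG n).Adj (i, p) (i, q) ↔ p ≠ q := by
  simp [GG, SimpleGraph.fromRel_adj]

lemma adj10 (p q : Fin n × Fin n) : (GG n).Adj (1, p) (0, q) ↔ pos p ≤ pos q := by
  rw [SimpleGraph.adj_comm, adj01]

lemma adj12 (p q : Fin n × Fin n) : (GG n).Adj (1, p) (2, q) ↔ pos p ≤ pos q := by
  rw [SimpleGraph.adj_comm, adj21]

lemma adj32 (p q : Fin n × Fin n) : (GG n).Adj (3, p) (2, q) ↔ pos p ≤ pos q := by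
  rw [SimpleGraph.adj_comm, adj23]

lemma adj30 (p q : Fin n × Fin n) : (GG n).Adj (3, p) (0, q) ↔ pos p + n ≤ pos q := by
  rw [SimpleGraph.adj_comm, adj03]

lemma adj20 (p q : Fin n × Fin n) : ¬ (GG n).Adj (2, p) (0, q) := by
  rw [SimpleGraph.adj_comm]; exact adj02 q p

lemma adj31 (p q : Fin n × Fin n) : ¬ (GG n).Adj (3, p) (1, q) := by
  rw [SimpleGraph.adj_comm]; exact adj13 q p

lemma isPart (hn : 2 ≤ n) : IsMonotoneCliquePartition (GG n) Prod.fst := by
  refine ⟨fun i => ⟨(i, (⟨0, by omega⟩, ⟨0, by omega⟩)), rfl⟩, ?_, ?_⟩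
  · rintro i ⟨a, p⟩ ha ⟨b, q⟩ hb hab
    simp only [part, Set.mem_ofPred_eq] at ha hb
    subst ha; subst hb
    rw [adj_same]
    exact fun h => hab (by rw [h])
  · rintro i ⟨a, p⟩ ha ⟨b, q⟩ hb
    simp only [part, Set.mem_ofPred_eq] at ha hb
    subst ha; subst hb
    have key : ∀ p q : Fin n × Fin n, pos p ≤ pos q → ∀ i : Fin 4,
        (∀ y ∈ (part Prod.fst i)ᶜ, (GG n).Adj (i, p) y → (GG n).Adj (i, q) y) ∨
        (∀ y ∈ (part Prod.fst i)ᶜ, (GG n).Adj (i, q) y → (GG n).Adj (i, p) y) := by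
      intro p q hpq i
      fin_cases i
      · left
        rintro ⟨j, r⟩ hj
        fin_cases j
        · exact absurd rfl hj
        · show (GG n).Adj (0, p) (1, r) → (GG n).Adj (0, q) (1, r)
          rw [adj01, adj01]; omega
        · exact fun h => absurd h (adj02 p r)
        · show (GG n).Adj (0, p) (3, r) → (GG n).Adj (0, q) (3, r)
          rw [adj03, adj03]; omega
      · right
        rintro ⟨j, r⟩ hj
        fin_cases j
        · show (GG n).Adj (1, q) (0, r) → (GG n).Adj (1, p) (0, r)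
          rw [adj10, adj10]; omega
        · exact absurd rfl hj
        · show (GG n).Adj (1, q) (2, r) → (GG n).Adj (1, p) (2, r)
          rw [adj12, adj12]; omega
        · exact fun h => absurd h (adj13 q r)
      · left
        rintro ⟨j, r⟩ hj
        fin_cases j
        · exact fun h => absurd h (adj20 p r)
        · show (GG n).Adj (2, p) (1, r) → (GG n).Adj (2, q) (1, r)
          rw [adj21, adj21]; omega
        · exact absurd rfl hj
        · show (GG n).Adj (2, p) (3, r) → (GG n).Adj (2, q) (3, r)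
          rw [adj23, adj23]; omega
      · right
        rintro ⟨j, r⟩ hj
        fin_cases j
        · show (GG n).Adj (3, q) (0, r) → (GG n).Adj (3, p) (0, r)
          rw [adj30, adj30]; omega
        · exact fun h => absurd h (adj31 q r)
        · show (GG n).Adj (3, q) (2, r) → (GG n).Adj (3, p) (2, r)
          rw [adj32, adj32]; omega
        · exact absurd rfl hj
    rcases le_total (pos p) (pos q) with h | h
    · exact key p q h _
    · exact (key q p h _).symm

lemma box_adj (hn : 2 ≤ n) (i j : Fin 4) : (boxGraph (GG n) (Prod.fst)).Adj i j ↔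
    (SimpleGraph.cycleGraph 4).Adj i j := by
  have o : Fin n × Fin n := (⟨0, by omega⟩, ⟨0, by omega⟩)
  set z : Fin n × Fin n := (⟨0, by omega⟩, ⟨0, by omega⟩) with hz
  set t : Fin n × Fin n := (⟨1, by omega⟩, ⟨0, by omega⟩) with ht
  have pz : pos z = 0 := by simp [pos, hz]
  have pt : pos t = n := by simp [pos, ht]
  have mem : ∀ (i : Fin 4) (p : Fin n × Fin n), (i, p) ∈ part (Prod.fst) i := fun _ _ => rfl
  -- non-uniform pairs
  have h01 : ¬ Uniform (GG n) (part Prod.fst 0) (part Prod.fst 1) := by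
    rintro (h | h)
    · have := h _ (mem 0 z) _ (mem 1 t)
      rw [adj01] at this; omega
    · have := h _ (mem 0 z) _ (mem 1 z)
      rw [adj01] at this; omega
  have h21 : ¬ Uniform (GG n) (part Prod.fst 2) (part Prod.fst 1) := by
    rintro (h | h)
    · have := h _ (mem 2 z) _ (mem 1 t)
      rw [adj21] at this; omega
    · have := h _ (mem 2 z) _ (mem 1 z)
      rw [adj21] at this; omega
  have h23 : ¬ Uniform (GG n) (part Prod.fst 2) (part Prod.fst 3) := by
    rintro (h | h)
    · have := h _ (mem 2 z) _ (mem 3 t)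
      rw [adj23] at this; omega
    · have := h _ (mem 2 z) _ (mem 3 z)
      rw [adj23] at this; omega
  have h03 : ¬ Uniform (GG n) (part Prod.fst 0) (part Prod.fst 3) := by
    rintro (h | h)
    · have := h _ (mem 0 z) _ (mem 3 z)
      rw [adj03] at this; omega
    · have := h _ (mem 0 t) _ (mem 3 z)
      rw [adj03] at this; omega
  have h02 : Uniform (GG n) (part Prod.fst 0) (part Prod.fst 2) := by
    right
    rintro ⟨a, p⟩ ha ⟨b, q⟩ hb
    simp only [part, Set.mem_ofPred_eq] at ha hb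
    subst ha; subst hb
    exact adj02 p q
  have h13 : Uniform (GG n) (part Prod.fst 1) (part Prod.fst 3) := by
    right
    rintro ⟨a, p⟩ ha ⟨b, q⟩ hb
    simp only [part, Set.mem_ofPred_eq] at ha hb
    subst ha; subst hb
    exact adj13 p q
  have b01 : (boxGraph (GG n) (Prod.fst)).Adj 0 1 := ⟨by decide, h01⟩
  have b12 : (boxGraph (GG n) (Prod.fst)).Adj 2 1 := ⟨by decide, h21⟩
  have b23 : (boxGraph (GG n) (Prod.fst)).Adj 2 3 := ⟨by decide, h23⟩
  have b03 : (boxGraph (GG n) (Prod.fst)).Adj 0 3 := ⟨by decide, h03⟩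
  have b02 : ¬ (boxGraph (GG n) (Prod.fst)).Adj 0 2 := fun h => h.2 h02
  have b13 : ¬ (boxGraph (GG n) (Prod.fst)).Adj 1 3 := fun h => h.2 h13
  have c01 : (SimpleGraph.cycleGraph 4).Adj 0 1 := by decide
  have c12 : (SimpleGraph.cycleGraph 4).Adj 2 1 := by decide
  have c23 : (SimpleGraph.cycleGraph 4).Adj 2 3 := by decide
  have c03 : (SimpleGraph.cycleGraph 4).Adj 0 3 := by decide
  have c02 : ¬ (SimpleGraph.cycleGraph 4).Adj 0 2 := by decide
  have c13 : ¬ (SimpleGraph.cycleGraph 4).Adj 1 3 := by decide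
  fin_cases i <;> fin_cases j
  · exact iff_of_false (SimpleGraph.irrefl _) (SimpleGraph.irrefl _)
  · exact iff_of_true b01 c01
  · exact iff_of_false b02 c02
  · exact iff_of_true b03 c03
  · exact iff_of_true b01.symm c01.symm
  · exact iff_of_false (SimpleGraph.irrefl _) (SimpleGraph.irrefl _)
  · exact iff_of_true b12.symm c12.symm
  · exact iff_of_false b13 c13
  · exact iff_of_false (fun h => b02 h.symm) (fun h => c02 h.symm)
  · exact iff_of_true b12 c12
  · exact iff_of_false (SimpleGraph.irrefl _) (SimpleGraph.irrefl _)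
  · exact iff_of_true b23 c23
  · exact iff_of_true b03.symm c03.symm
  · exact iff_of_false (fun h => b13 h.symm) (fun h => c13 h.symm)
  · exact iff_of_true b23.symm c23.symm
  · exact iff_of_false (SimpleGraph.irrefl _) (SimpleGraph.irrefl _)

/-- two subsets given by predicates that disagree rarely -/
lemma disagree {k : ℕ} {A : Set (Fin 4 × (Fin n × Fin n))} (hT : Types (GG n) A k) {i j : Fin 4}
    (hij : ∀ p q, (GG n).Adj (i, p) (j, q) ↔ pos q ≤ pos p) :
    (univ.filter (fun p : Fin n × Fin n => ¬ ((i, p) ∈ A ↔ (j, p) ∈ A))).card ≤ 2 * k := by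
  have e : univ.filter (fun p : Fin n × Fin n => ¬ ((i, p) ∈ A ↔ (j, p) ∈ A)) ⊆
      univ.filter (fun p : Fin n × Fin n => (i, p) ∈ A ∧ (j, p) ∉ A) ∪
      univ.filter (fun p : Fin n × Fin n => (j, p) ∈ A ∧ (i, p) ∉ A) := by
    intro p hp
    simp only [mem_filter, mem_univ, true_and, mem_union] at hp ⊢
    tauto
  refine (card_le_card e).trans ((card_union_le _ _).trans ?_)
  have h1 := types_chain hT (univ.filter (fun p : Fin n × Fin n => (i, p) ∈ A ∧ (j, p) ∉ A))
    (fun p => (i, p)) (fun p => (j, p)) (fun p hp => (mem_filter.1 hp).2.1)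
    (fun p hp => (mem_filter.1 hp).2.2) (fun p _ => (hij p p).2 le_rfl) (by
      intro p _ q _ hpq h
      rw [hij, hij] at h
      exact hpq (pos_inj (le_antisymm h.2 h.1)))
  have h2 := types_chain hT (univ.filter (fun p : Fin n × Fin n => (j, p) ∈ A ∧ (i, p) ∉ A))
    (fun p => (j, p)) (fun p => (i, p)) (fun p hp => (mem_filter.1 hp).2.1)
    (fun p hp => (mem_filter.1 hp).2.2) (fun p _ => ((hij p p).2 le_rfl).symm) (by
      intro p _ q _ hpq h
      rw [SimpleGraph.adj_comm, hij, SimpleGraph.adj_comm, hij] at h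
      exact hpq (pos_inj (le_antisymm h.1 h.2)))
  omega

/-- successor in `Fin n` (the last element is fixed) -/
def nx (r : Fin n) : Fin n := if h : r.val + 1 < n then ⟨r.val + 1, h⟩ else r

lemma nx_eq {a b : Fin n} (h : a.val + 1 = b.val) : nx a = b := by
  have := b.2
  unfold nx
  rw [dif_pos (by omega)]
  exact Fin.ext h

lemma pos_right {p : Fin n × Fin n} (h : p.2.val + 1 < n) : pos (p.1, nx p.2) = pos p + 1 := by
  unfold nx pos
  simp only [h, dite_true]
  omega

lemma pos_up {p : Fin n × Fin n} (h : p.1.val + 1 < n) : pos (nx p.1, p.2) = pos p + n := by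
  unfold nx pos
  simp only [h, dite_true]
  ring

lemma horizontal {k : ℕ} {A : Set (Fin 4 × (Fin n × Fin n))} (hT : Types (GG n) A k) :
    (univ.filter (fun p : Fin n × Fin n => p.2.val + 1 < n ∧
      ¬ ((0, p) ∈ A ↔ (0, (p.1, nx p.2)) ∈ A))).card ≤ 4 * k := by
  have e : univ.filter (fun p : Fin n × Fin n => p.2.val + 1 < n ∧
      ¬ ((0, p) ∈ A ↔ (0, (p.1, nx p.2)) ∈ A)) ⊆
      univ.filter (fun p : Fin n × Fin n => ¬ ((0, p) ∈ A ↔ (1, p) ∈ A)) ∪
      (univ.filter (fun p : Fin n × Fin n => p.2.val + 1 < n ∧ (0, (p.1, nx p.2)) ∈ A ∧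
        (1, p) ∉ A ∧ (0, p) ∉ A) ∪
      univ.filter (fun p : Fin n × Fin n => p.2.val + 1 < n ∧ (1, p) ∈ A ∧
        (0, (p.1, nx p.2)) ∉ A ∧ (0, p) ∈ A)) := by
    intro p hp
    simp only [mem_filter, mem_univ, true_and, mem_union] at hp ⊢
    tauto
  refine (card_le_card e).trans ((card_union_le _ _).trans ?_)
  have h0 := disagree hT (i := 0) (j := 1) adj01
  have hU := card_union_le (univ.filter (fun p : Fin n × Fin n => p.2.val + 1 < n ∧
        (0, (p.1, nx p.2)) ∈ A ∧ (1, p) ∉ A ∧ (0, p) ∉ A))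
      (univ.filter (fun p : Fin n × Fin n => p.2.val + 1 < n ∧ (1, p) ∈ A ∧
        (0, (p.1, nx p.2)) ∉ A ∧ (0, p) ∈ A))
  have h1 := types_chain hT (univ.filter (fun p : Fin n × Fin n => p.2.val + 1 < n ∧
        (0, (p.1, nx p.2)) ∈ A ∧ (1, p) ∉ A ∧ (0, p) ∉ A))
    (fun p => (0, (p.1, nx p.2))) (fun p => (1, p)) (fun p hp => (mem_filter.1 hp).2.2.1)
    (fun p hp => (mem_filter.1 hp).2.2.2.1) (fun p hp => by
      rw [adj01, pos_right (mem_filter.1 hp).2.1]; omega) (by
      intro p hp q hq hpq h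
      obtain ⟨-, hp1, hp2, hp3, hp4⟩ := mem_filter.1 hp
      obtain ⟨-, hq1, hq2, hq3, hq4⟩ := mem_filter.1 hq
      rw [adj01, adj01, pos_right hp1, pos_right hq1] at h
      have hne : pos p ≠ pos q := fun h' => hpq (pos_inj h')
      rcases lt_or_gt_of_ne hne with h' | h'
      · have : pos (p.1, nx p.2) = pos q := by rw [pos_right hp1]; omega
        rw [pos_inj this] at hp2
        exact hq4 hp2
      · have : pos (q.1, nx q.2) = pos p := by rw [pos_right hq1]; omega
        rw [pos_inj this] at hq2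
        exact hp4 hq2)
  have h2 := types_chain hT (univ.filter (fun p : Fin n × Fin n => p.2.val + 1 < n ∧
        (1, p) ∈ A ∧ (0, (p.1, nx p.2)) ∉ A ∧ (0, p) ∈ A))
    (fun p => (1, p)) (fun p => (0, (p.1, nx p.2))) (fun p hp => (mem_filter.1 hp).2.2.1)
    (fun p hp => (mem_filter.1 hp).2.2.2.1) (fun p hp => by
      rw [adj10, pos_right (mem_filter.1 hp).2.1]; omega) (by
      intro p hp q hq hpq h
      obtain ⟨-, hp1, hp2, hp3, hp4⟩ := mem_filter.1 hp
      obtain ⟨-, hq1, hq2, hq3, hq4⟩ := mem_filter.1 hq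
      rw [adj10, adj10, pos_right hp1, pos_right hq1] at h
      have hne : pos p ≠ pos q := fun h' => hpq (pos_inj h')
      rcases lt_or_gt_of_ne hne with h' | h'
      · have : pos (p.1, nx p.2) = pos q := by rw [pos_right hp1]; omega
        rw [pos_inj this] at hp3
        exact hp3 hq4
      · have : pos (q.1, nx q.2) = pos p := by rw [pos_right hq1]; omega
        rw [pos_inj this] at hq3
        exact hq3 hp4)
  omega

lemma vertical {k : ℕ} {A : Set (Fin 4 × (Fin n × Fin n))} (hT : Types (GG n) A k) :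
    (univ.filter (fun p : Fin n × Fin n => p.1.val + 1 < n ∧
      ¬ ((0, p) ∈ A ↔ (0, (nx p.1, p.2)) ∈ A))).card ≤ 8 * k := by
  have e : univ.filter (fun p : Fin n × Fin n => p.1.val + 1 < n ∧
      ¬ ((0, p) ∈ A ↔ (0, (nx p.1, p.2)) ∈ A)) ⊆
      (univ.filter (fun p : Fin n × Fin n => ¬ ((0, p) ∈ A ↔ (1, p) ∈ A)) ∪
      univ.filter (fun p : Fin n × Fin n => ¬ ((2, p) ∈ A ↔ (1, p) ∈ A))) ∪
      (univ.filter (fun p : Fin n × Fin n => ¬ ((2, p) ∈ A ↔ (3, p) ∈ A)) ∪
      (univ.filter (fun p : Fin n × Fin n => p.1.val + 1 < n ∧ (3, p) ∈ A ∧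
        (0, (nx p.1, p.2)) ∉ A) ∪
      univ.filter (fun p : Fin n × Fin n => p.1.val + 1 < n ∧ (0, (nx p.1, p.2)) ∈ A ∧
        (3, p) ∉ A))) := by
    intro p hp
    simp only [mem_filter, mem_univ, true_and, mem_union] at hp ⊢
    tauto
  refine (card_le_card e).trans ?_
  refine (card_union_le _ _).trans ((Nat.add_le_add (card_union_le _ _) ((card_union_le _ _).trans
    (Nat.add_le_add_left (card_union_le _ _) _))).trans ?_)
  have h0 := disagree hT (i := 0) (j := 1) adj01
  have h1 := disagree hT (i := 2) (j := 1) adj21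
  have h2 := disagree hT (i := 2) (j := 3) adj23
  have h3 := types_chain hT (univ.filter (fun p : Fin n × Fin n => p.1.val + 1 < n ∧
        (3, p) ∈ A ∧ (0, (nx p.1, p.2)) ∉ A))
    (fun p => (3, p)) (fun p => (0, (nx p.1, p.2))) (fun p hp => (mem_filter.1 hp).2.2.1)
    (fun p hp => (mem_filter.1 hp).2.2.2) (fun p hp => by
      rw [adj30, pos_up (mem_filter.1 hp).2.1]) (by
      intro p hp q hq hpq h
      rw [adj30, adj30, pos_up (mem_filter.1 hp).2.1, pos_up (mem_filter.1 hq).2.1] at h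
      exact hpq (pos_inj (by omega)))
  have h4 := types_chain hT (univ.filter (fun p : Fin n × Fin n => p.1.val + 1 < n ∧
        (0, (nx p.1, p.2)) ∈ A ∧ (3, p) ∉ A))
    (fun p => (0, (nx p.1, p.2))) (fun p => (3, p)) (fun p hp => (mem_filter.1 hp).2.2.1)
    (fun p hp => (mem_filter.1 hp).2.2.2) (fun p hp => by
      rw [adj03, pos_up (mem_filter.1 hp).2.1]) (by
      intro p hp q hq hpq h
      rw [adj03, adj03, pos_up (mem_filter.1 hp).2.1, pos_up (mem_filter.1 hq).2.1] at h
      exact hpq (pos_inj (by omega)))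
  omega

lemma mixed_rows {A : Set (Fin 4 × (Fin n × Fin n))} :
    (univ.filter (fun a : Fin n => (∃ r, (0, (a, r)) ∈ A) ∧ ∃ r, (0, (a, r)) ∉ A)).card ≤
    (univ.filter (fun p : Fin n × Fin n => p.2.val + 1 < n ∧
      ¬ ((0, p) ∈ A ↔ (0, (p.1, nx p.2)) ∈ A))).card := by
  refine (card_le_card ?_).trans (card_image_le (f := Prod.fst))
  intro a ha
  simp only [mem_filter, mem_univ, true_and] at ha
  obtain ⟨r, s, hr, hs, hrs⟩ := CutAux.step_exists (fun r => (0, (a, r)) ∈ A) ha.1 ha.2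
  rw [mem_image]
  have h1 := r.2
  have h2 := s.2
  rcases hrs with h | h
  · refine ⟨(a, r), ?_, rfl⟩
    simp only [mem_filter, mem_univ, true_and]
    refine ⟨by omega, ?_⟩
    rw [nx_eq h]
    tauto
  · refine ⟨(a, s), ?_, rfl⟩
    simp only [mem_filter, mem_univ, true_and]
    refine ⟨by omega, ?_⟩
    rw [nx_eq h]
    tauto

lemma mixed_cols {A : Set (Fin 4 × (Fin n × Fin n))} :
    (univ.filter (fun r : Fin n => (∃ a, (0, (a, r)) ∈ A) ∧ ∃ a, (0, (a, r)) ∉ A)).card ≤
    (univ.filter (fun p : Fin n × Fin n => p.1.val + 1 < n ∧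
      ¬ ((0, p) ∈ A ↔ (0, (nx p.1, p.2)) ∈ A))).card := by
  refine (card_le_card ?_).trans (card_image_le (f := Prod.snd))
  intro r hr
  simp only [mem_filter, mem_univ, true_and] at hr
  obtain ⟨a, b, ha, hb, hab⟩ := CutAux.step_exists (fun a => (0, (a, r)) ∈ A) hr.1 hr.2
  rw [mem_image]
  have h1 := a.2
  have h2 := b.2
  rcases hab with h | h
  · refine ⟨(a, r), ?_, rfl⟩
    simp only [mem_filter, mem_univ, true_and]
    refine ⟨by omega, ?_⟩
    rw [nx_eq h]
    tauto
  · refine ⟨(b, r), ?_, rfl⟩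
    simp only [mem_filter, mem_univ, true_and]
    refine ⟨by omega, ?_⟩
    rw [nx_eq h]
    tauto

/-- the set where membership differs from `g` is small in the first clique -/
lemma almost_const {k : ℕ} {A : Set (Fin 4 × (Fin n × Fin n))} (hT : Types (GG n) A k)
    (hk : 8 * k < n) : ∃ g : Prop,
    (univ.filter (fun p : Fin n × Fin n => ¬ ((0, p) ∈ A ↔ g))).card ≤ 4 * k * (8 * k) := by
  set R := univ.filter (fun a : Fin n => (∃ r, (0, (a, r)) ∈ A) ∧ ∃ r, (0, (a, r)) ∉ A) with hR
  set C := univ.filter (fun r : Fin n => (∃ a, (0, (a, r)) ∈ A) ∧ ∃ a, (0, (a, r)) ∉ A) with hC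
  have cR : R.card ≤ 4 * k := mixed_rows.trans (horizontal hT)
  have cC : C.card ≤ 8 * k := mixed_cols.trans (vertical hT)
  have hRex : ∃ a : Fin n, a ∉ R := by
    by_contra hcon
    push Not at hcon
    have : R = univ := Finset.eq_univ_iff_forall.2 hcon
    rw [this] at cR
    simp at cR
    omega
  have hCex : ∃ r : Fin n, r ∉ C := by
    by_contra hcon
    push Not at hcon
    have : C = univ := Finset.eq_univ_iff_forall.2 hcon
    rw [this] at cC
    simp at cC
    omega
  obtain ⟨a0, ha0⟩ := hRex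
  obtain ⟨r0, hr0⟩ := hCex
  have rowc : ∀ a, a ∉ R → ∀ r s, ((0, (a, r)) ∈ A ↔ (0, (a, s)) ∈ A) := by
    intro a ha r s
    simp only [hR, mem_filter, mem_univ, true_and, not_and_or, not_exists, not_not] at ha
    rcases ha with h | h
    · simp [h r, h s]
    · simp [h r, h s]
  have colc : ∀ r, r ∉ C → ∀ a b, ((0, (a, r)) ∈ A ↔ (0, (b, r)) ∈ A) := by
    intro r hr a b
    simp only [hC, mem_filter, mem_univ, true_and, not_and_or, not_exists, not_not] at hr
    rcases hr with h | h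
    · simp [h a, h b]
    · simp [h a, h b]
  refine ⟨(0, (a0, r0)) ∈ A, ?_⟩
  have : univ.filter (fun p : Fin n × Fin n => ¬ ((0, p) ∈ A ↔ (0, (a0, r0)) ∈ A)) ⊆ R ×ˢ C := by
    rintro ⟨a, r⟩ hp
    simp only [mem_filter, mem_univ, true_and] at hp
    rw [mem_product]
    constructor
    · by_contra ha
      apply hp
      rw [rowc a ha r r0, colc r0 hr0 a a0]
    · by_contra hr
      apply hp
      rw [colc r hr a a0, rowc a0 ha0 r r0]
  refine (card_le_card this).trans ?_
  rw [card_product]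
  exact Nat.mul_le_mul cR cC

lemma lower (hn : 2 ≤ n) {k : ℕ} (hk : CwLE (GG n) k) : n ≤ 11 * k := by
  by_contra hlt
  push Not at hlt
  have hcard : (Set.univ : Set (Fin 4 × (Fin n × Fin n))).ncard = 4 * (n * n) := by
    rw [Set.ncard_univ]; simp
  obtain ⟨A, hT, h1, h2⟩ := balanced_cut (GG n) k hk Set.univ (by rw [hcard]; nlinarith)
  rw [Set.inter_univ, hcard] at h1 h2
  obtain ⟨g, hg⟩ := almost_const hT (by omega)
  have d01 := disagree hT (i := 0) (j := 1) adj01
  have d21 := disagree hT (i := 2) (j := 1) adj21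
  have d23 := disagree hT (i := 2) (j := 3) adj23
  -- sizes of the exceptional sets
  set E : Fin 4 → Finset (Fin n × Fin n) :=
    fun i => univ.filter (fun p : Fin n × Fin n => ¬ ((i, p) ∈ A ↔ g)) with hE
  have e0 : (E 0).card ≤ 4 * k * (8 * k) := hg
  have e1 : (E 1).card ≤ 4 * k * (8 * k) + 2 * k := by
    have : E 1 ⊆ E 0 ∪ univ.filter (fun p : Fin n × Fin n => ¬ ((0, p) ∈ A ↔ (1, p) ∈ A)) := by
      intro p hp
      simp only [hE, mem_filter, mem_univ, true_and, mem_union] at hp ⊢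
      tauto
    have := (card_le_card this).trans (card_union_le _ _)
    omega
  have e2 : (E 2).card ≤ 4 * k * (8 * k) + 4 * k := by
    have : E 2 ⊆ E 1 ∪ univ.filter (fun p : Fin n × Fin n => ¬ ((2, p) ∈ A ↔ (1, p) ∈ A)) := by
      intro p hp
      simp only [hE, mem_filter, mem_univ, true_and, mem_union] at hp ⊢
      tauto
    have := (card_le_card this).trans (card_union_le _ _)
    omega
  have e3 : (E 3).card ≤ 4 * k * (8 * k) + 6 * k := by
    have : E 3 ⊆ E 2 ∪ univ.filter (fun p : Fin n × Fin n => ¬ ((2, p) ∈ A ↔ (3, p) ∈ A)) := by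
      intro p hp
      simp only [hE, mem_filter, mem_univ, true_and, mem_union] at hp ⊢
      tauto
    have := (card_le_card this).trans (card_union_le _ _)
    omega
  have tot : (univ.filter (fun x : Fin 4 × (Fin n × Fin n) => ¬ (x ∈ A ↔ g))).card ≤
      4 * (4 * k * (8 * k)) + 12 * k := by
    have h5 : (univ.filter (fun x : Fin 4 × (Fin n × Fin n) => ¬ (x ∈ A ↔ g))).card =
        ∑ i : Fin 4, (E i).card := by
      rw [Finset.card_filter, Fintype.sum_prod_type]
      apply Finset.sum_congr rfl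
      intro i _
      rw [hE, Finset.card_filter]
    rw [h5, Fin.sum_univ_four]
    omega
  have hkk : 4 * (n * n) ≤ 3 * (4 * (4 * k * (8 * k)) + 12 * k) := by
    by_cases hgt : g
    · have hc : Aᶜ.ncard ≤ 4 * (4 * k * (8 * k)) + 12 * k := by
        refine le_trans (le_of_eq ?_) tot
        rw [← Set.ncard_coe_finset]
        congr 1
        ext x
        simp [hgt]
      have := Set.ncard_add_ncard_compl A
      rw [← Set.ncard_univ, hcard] at this
      omega
    · have hc : A.ncard ≤ 4 * (4 * k * (8 * k)) + 12 * k := by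
        refine le_trans (le_of_eq ?_) tot
        rw [← Set.ncard_coe_finset]
        congr 1
        ext x
        simp [hgt]
      omega
  have h6 : (11 * k + 1) * (11 * k + 1) ≤ n * n := Nat.mul_le_mul (by omega) (by omega)
  nlinarith

end

/-- For every `n ≥ 2` the graph `GG n` with `4 n ^ 2` vertices has a monotone partition into four
cliques whose box graph is a chordless cycle, and its clique-width is at least `n / 11`. Hence
there is no function `g` as asked for in Q1. -/
theorem result :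
    (∀ n : ℕ, 2 ≤ n → ∃ (G : SimpleGraph (Fin 4 × (Fin n × Fin n)))
      (P : Fin 4 × (Fin n × Fin n) → Fin 4), IsMonotoneCliquePartition G P ∧
      Nonempty (boxGraph G P ≃g SimpleGraph.cycleGraph 4) ∧ n ≤ 11 * cliqueWidth G) ∧
    ¬ ∃ g : ℕ → ℝ, ∀ (k : ℕ) (V : Type) [Fintype V] (G : SimpleGraph V) (P : V → Fin k),
      3 ≤ k → IsMonotoneCliquePartition G P → Nonempty (boxGraph G P ≃g SimpleGraph.cycleGraph k) →
      (cliqueWidth G : ℝ) ≤ g k * Real.log (Fintype.card V) := by
  have main : ∀ n : ℕ, 2 ≤ n → ∃ (G : SimpleGraph (Fin 4 × (Fin n × Fin n)))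
      (P : Fin 4 × (Fin n × Fin n) → Fin 4), IsMonotoneCliquePartition G P ∧
      Nonempty (boxGraph G P ≃g SimpleGraph.cycleGraph 4) ∧ n ≤ 11 * cliqueWidth G := by
    intro n hn
    have : Nonempty (Fin 4 × (Fin n × Fin n)) := ⟨(0, (⟨0, by omega⟩, ⟨0, by omega⟩))⟩
    exact ⟨GG n, Prod.fst, isPart hn, ⟨⟨Equiv.refl _, fun {i j} => (box_adj hn i j).symm⟩⟩,
      lower hn (cwLE_cliqueWidth _)⟩
  refine ⟨main, ?_⟩
  rintro ⟨g, hg⟩
  -- `n / 11 ≤ g 4 * log (4 n ^ 2)` fails for large `n`
  have hlim : Filter.Tendsto (fun n : ℕ => Real.log (n : ℝ) / (n : ℝ)) Filter.atTop (nhds 0) := by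
    have h1 := Real.isLittleO_log_id_atTop.tendsto_div_nhds_zero
    exact h1.comp tendsto_natCast_atTop_atTop
  set c : ℝ := max (g 4) 1 with hc
  have hc1 : 1 ≤ c := le_max_right _ _
  have hev : ∀ᶠ n : ℕ in Filter.atTop, Real.log (n : ℝ) / (n : ℝ) < 1 / (100 * c) := by
    have hpos : (0 : ℝ) < 1 / (100 * c) := by positivity
    exact (hlim.eventually (gt_mem_nhds hpos))
  obtain ⟨n, hn1, hn2⟩ := (hev.and (Filter.eventually_ge_atTop 4)).exists
  obtain ⟨G, P, hP, hbox, hw⟩ := main n (by omega)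
  have h2 := hg 4 _ G P (by norm_num) hP hbox
  have hcard : (Fintype.card (Fin 4 × (Fin n × Fin n)) : ℝ) = 4 * (n : ℝ) ^ 2 := by
    simp [Fintype.card_prod]; ring
  rw [hcard] at h2
  have hnpos : (0 : ℝ) < n := by positivity
  have hn4 : (4 : ℝ) ≤ n := by exact_mod_cast hn2
  have hlog : Real.log (4 * (n : ℝ) ^ 2) ≤ 3 * Real.log n := by
    have : Real.log (4 * (n : ℝ) ^ 2) ≤ Real.log ((n : ℝ) ^ 3) := by
      apply Real.log_le_log (by positivity)
      nlinarith
    rwa [Real.log_pow] at this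
  have hlog0 : 0 ≤ Real.log (4 * (n : ℝ) ^ 2) := by
    apply Real.log_nonneg
    nlinarith
  have h3 : (cliqueWidth G : ℝ) ≤ c * (3 * Real.log n) := by
    calc (cliqueWidth G : ℝ) ≤ g 4 * Real.log (4 * (n : ℝ) ^ 2) := h2
      _ ≤ c * Real.log (4 * (n : ℝ) ^ 2) := mul_le_mul_of_nonneg_right (le_max_left _ _) hlog0
      _ ≤ c * (3 * Real.log n) := mul_le_mul_of_nonneg_left hlog (by linarith)
  have h4 : (n : ℝ) ≤ 11 * cliqueWidth G := by exact_mod_cast hw
  have h5 : Real.log (n : ℝ) < (n : ℝ) / (100 * c) := by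
    rw [div_lt_iff₀ hnpos] at hn1
    calc Real.log (n : ℝ) < 1 / (100 * c) * n := hn1
      _ = _ := by ring
  have h6 : c * (3 * Real.log n) ≤ 3 * n / 100 := by
    have : c * Real.log n ≤ c * ((n : ℝ) / (100 * c)) := mul_le_mul_of_nonneg_left h5.le (by linarith)
    have h7 : c * ((n : ℝ) / (100 * c)) = n / 100 := by
      field_simp
    linarith
  linarith

end Pool.Agent.Results.MP_41df87_co.PolynomialGrowth
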